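import Pool.Agent.Helper14.BSC.Stmts

set_option autoImplicit false

namespace Pool.Agent.Helper14.BSC

theorem st_DIV (hE : ST_EMB) (hL : ST_LIM) : ST_DIV := by
  intro k _ _ hk ρ hρ hdiv
  haveI : Fact (Nat.Prime 2) := ⟨Nat.prime_two⟩
  obtain ⟨σ, E, hfin, hσ⟩ := hE k hk 2
  have hσρ : σ ρ ≠ 0 := fun h => hρ (σ.injective (by rw [h, map_zero]))
  have h1 : σ ρ = 1 := by
    refine hL 2 E hfin (σ ρ) hσρ fun n hn δ hδ => ?_
    obtain ⟨y, hy⟩ := hdiv n hn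
    refine ⟨σ y, hσ y, ?_⟩
    rw [hy, map_pow, sub_self, norm_zero]
    exact hδ
  exact σ.injective (by rw [h1, map_one])

end Pool.Agent.Helper14.BSC
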