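import Pool.Agent.Helper14.BSC.Stmts

set_option autoImplicit false

namespace Pool.Agent.Helper14.BSC

open Finset

theorem ram_fix {N : Type} [Field N] (τ : N ≃+* N) (m : ℕ) (hm : ∀ x : N, (τ ^ m) x = x) (y : N)
    (hy : y ≠ 0) : τ (∏ j ∈ range m, (τ ^ j) y) = ∏ j ∈ range m, (τ ^ j) y := by
  have h1 : ∀ j : ℕ, τ ((τ ^ j) y) = (τ ^ (j + 1)) y := fun j => by
    rw [pow_succ', RingAut.mul_apply]
  rw [map_prod]
  simp only [h1]
  have h2 := prod_range_succ' (fun j => (τ ^ j) y) m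
  have h3 := prod_range_succ (fun j => (τ ^ j) y) m
  have h0 : (τ ^ 0) y = y := by rw [pow_zero]; rfl
  rw [h3, h0, hm y] at h2
  exact (mul_right_cancel₀ hy h2).symm

theorem ram_prod_fix {N₁ N₂ : Type} [Field N₁] [Field N₂] (i : N₁ →+* N₂) (τ : N₂ ≃+* N₂)
    (hf : ∀ x : N₂, τ x = x ↔ x ∈ i.range) (m : ℕ) (x : N₁) :
    ∏ j ∈ range m, (τ ^ j) (i x) = i x ^ m := by
  have h1 : ∀ j : ℕ, (τ ^ j) (i x) = i x := by
    intro j
    induction j with
    | zero => rw [pow_zero]; rfl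
    | succ n ih => rw [pow_succ', RingAut.mul_apply, ih, (hf (i x)).2 ⟨x, rfl⟩]
  simp only [h1, prod_const, card_range]

theorem ram_sqi {N : Type} [Field N] {a : N} (h : IsSquare a) : IsSquare a⁻¹ := by
  obtain ⟨b, rfl⟩ := h
  exact ⟨b⁻¹, by rw [mul_inv]⟩

theorem ram_sqc {N : Type} [Field N] {a b : N} (hb : IsSquare b) (hb0 : b ≠ 0)
    (h : IsSquare (b * a)) : IsSquare a := by
  have := (ram_sqi hb).mul h
  rwa [← mul_assoc, inv_mul_cancel₀ hb0, one_mul] at this

theorem ram_od_ne {N : Type} [Field N] {e x : N} (h : Od e x) : x ≠ 0 := by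
  rintro rfl
  exact h.1 ⟨0, by ring⟩

theorem ram_e_ne {N : Type} [Field N] {e : N} (h : Rigid e) : e ≠ 0 := by
  rintro rfl
  exact h.e1 ⟨0, by ring⟩

theorem ram_not_od {N : Type} [Field N] {e x : N} : ¬ Od e x ↔ IsSquare x ∨ IsSquare (e * x) := by
  unfold Od; tauto

theorem ram_ev_mul {N : Type} [Field N] {e : N} (h : Rigid e) {x y : N} (hx : ¬ Od e x)
    (hy : ¬ Od e y) : ¬ Od e (x * y) := by
  rw [ram_not_od] at *
  have he := ram_e_ne h
  rcases hx with hx | hx <;> rcases hy with hy | hy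
  · exact Or.inl (hx.mul hy)
  · right; have := hx.mul hy; rwa [show x * (e * y) = e * (x * y) by ring] at this
  · right; have := hx.mul hy; rwa [show e * x * y = e * (x * y) by ring] at this
  · left
    refine ram_sqc (b := e * e) ⟨e, rfl⟩ (mul_ne_zero he he) ?_
    have := hx.mul hy; rwa [show e * x * (e * y) = e * e * (x * y) by ring] at this

theorem ram_ev_inv {N : Type} [Field N] {e : N} (h : Rigid e) {x : N} (hx : ¬ Od e x) :
    ¬ Od e x⁻¹ := by
  rw [ram_not_od] at *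
  have he := ram_e_ne h
  rcases hx with hx | hx
  · exact Or.inl (ram_sqi hx)
  · right
    have h1 := ram_sqi hx
    have h2 : IsSquare (e * e) := ⟨e, rfl⟩
    have := h2.mul h1
    rwa [show e * e * (e * x)⁻¹ = e * x⁻¹ by rw [mul_inv]; field_simp] at this

theorem ram_ev_od {N : Type} [Field N] {e : N} (h : Rigid e) {x y : N} (hx : ¬ Od e x)
    (hx0 : x ≠ 0) (hy : Od e y) : Od e (x * y) := by
  by_contra hc
  have := ram_ev_mul h (ram_ev_inv h hx) hc
  rw [← mul_assoc, inv_mul_cancel₀ hx0, one_mul] at this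
  exact this hy

theorem ram_od_od {N : Type} [Field N] {e : N} (h : Rigid e) {x y : N} (hx : Od e x)
    (hy : Od e y) : ¬ Od e (x * y) := ram_not_od.2 (h.idx x y hx hy)

theorem ram_od_inv {N : Type} [Field N] {e : N} (h : Rigid e) {x : N} (hx : Od e x) :
    Od e x⁻¹ := by
  by_contra hc
  have := ram_ev_inv h hc
  rw [inv_inv] at this
  exact this hx

theorem ram_ev_one {N : Type} [Field N] {e : N} : ¬ Od e (1 : N) :=
  ram_not_od.2 (Or.inl ⟨1, by ring⟩)

/-- parity of a product of odd elements -/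
theorem ram_prod_par {N : Type} [Field N] {e : N} (h : Rigid e) (f : ℕ → N)
    (hf : ∀ j, Od e (f j)) (n : ℕ) : (∏ j ∈ range n, f j) ≠ 0 ∧
      (Even n → ¬ Od e (∏ j ∈ range n, f j)) ∧ (Odd n → Od e (∏ j ∈ range n, f j)) := by
  induction n with
  | zero =>
    rw [prod_range_zero]
    exact ⟨one_ne_zero, fun _ => ram_ev_one, fun h0 => absurd h0 (by decide)⟩
  | succ n ih =>
    rw [prod_range_succ]
    obtain ⟨h1, h2, h3⟩ := ih
    refine ⟨mul_ne_zero h1 (ram_od_ne (hf n)), fun he => ?_, fun ho => ?_⟩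
    · rw [Nat.even_add_one, Nat.not_even_iff_odd] at he
      exact ram_od_od h (h3 he) (hf n)
    · rw [Nat.odd_add_one, Nat.not_odd_iff_even] at ho
      exact ram_ev_od h (h2 ho) h1 (hf n)

theorem ram_ev_pow {N : Type} [Field N] {e : N} (h : Rigid e) {x : N} (hx : ¬ Od e x) (n : ℕ) :
    ¬ Od e (x ^ n) := by
  induction n with
  | zero => rw [pow_zero]; exact ram_ev_one
  | succ n ih => rw [pow_succ]; exact ram_ev_mul h ih hx

theorem ram_neg_one {N : Type} [Field N] {e x : N} (h : Rigid e) (hx : Od e x) : 1 + x ≠ 0 := by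
  intro h0
  have : x = -1 := by linear_combination h0
  rw [this] at hx
  exact hx.1 h.neg1

theorem ram_dep {N : Type} [Field N] {e w : N} (h : Rigid e) (hw : Od e w) :
    IsSquare (1 + w) ∨ IsSquare (1 + w⁻¹) := by
  have hw0 := ram_od_ne hw
  have h1 := ram_neg_one h hw
  rcases h.dep (1 + w)⁻¹ (w / (1 + w)) (inv_ne_zero h1) (div_ne_zero hw0 h1) (by field_simp)
    with hq | hq | hq
  · left
    have := ram_sqi hq
    rwa [inv_inv] at this
  · right
    have := ram_sqi hq
    rwa [show (w / (1 + w))⁻¹ = 1 + w⁻¹ by field_simp; ring] at this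
  · exfalso
    have h2 : IsSquare ((1 + w) * (1 + w)) := ⟨1 + w, rfl⟩
    have := h2.mul hq
    rw [show (1 + w) * (1 + w) * ((1 + w)⁻¹ * (w / (1 + w))) = w by field_simp] at this
    exact hw.1 this

theorem ram_contra {N : Type} [Field N] {e a : N} (h : Rigid e) (ha : Od e a)
    (h1 : IsSquare (1 + a)) (h2 : IsSquare (1 + a⁻¹)) : False := by
  have h3 := h1.mul (ram_sqi h2)
  have h4 := ram_neg_one h ha
  have ha0 := ram_od_ne ha
  have h5 : 1 + a⁻¹ = (1 + a) / a := by field_simp; ring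
  rw [h5, show (1 + a) * ((1 + a) / a)⁻¹ = a by rw [inv_div]; field_simp] at h3
  exact ha.1 h3

theorem st_RAM (hR : ST_RIG) : ST_RAM := by
  intro N₁ N₂ _ _ i τ m hm hf hτ e he hie x
  have hinj := i.injective
  -- squares descend
  have hS : ∀ x : N₁, IsSquare (i x) ↔ IsSquare x := by
    intro x
    constructor
    · rintro ⟨y, hy⟩
      by_cases hx : x = 0
      · rw [hx]; exact ⟨0, by ring⟩
      have hix : i x ≠ 0 := fun h0 => hx (hinj (by rw [h0, map_zero]))
      have hy0 : y ≠ 0 := by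
        rintro rfl
        rw [mul_zero] at hy; exact hix hy
      obtain ⟨Y, hY⟩ := (hf _).1 (ram_fix τ m hτ y hy0)
      have h1 : i (Y * Y) = i (x ^ m) := by
        rw [map_mul, hY, ← prod_mul_distrib, map_pow, ← ram_prod_fix i τ hf m x, hy]
        exact prod_congr rfl fun j _ => (map_mul _ _ _).symm
      have h2 : IsSquare (x ^ m) := ⟨Y, (hinj h1).symm⟩
      obtain ⟨n, hn⟩ := hm
      rw [hn, pow_succ, pow_mul] at h2
      refine ram_sqc (b := (x ^ 2) ^ n) ⟨x ^ n, by rw [← pow_mul, ← pow_add]; congr 1; ring⟩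
        (pow_ne_zero _ (pow_ne_zero _ hx)) h2
    · rintro ⟨y, rfl⟩
      exact ⟨i y, map_mul i y y⟩
  have hO : ∀ x : N₁, Od (i e) (i x) ↔ Od e x := by
    intro x
    unfold Od
    rw [← map_mul, hS, hS]
  have hS1 : ∀ x : N₁, IsSquare (1 + i x) ↔ IsSquare (1 + x) := by
    intro x
    rw [← hS (1 + x), map_add, map_one]
  constructor
  · rintro (⟨h1, h2⟩ | ⟨h1, h2⟩)
    · exact Or.inl ⟨(hO x).1 h1, (hS1 x).1 h2⟩
    · refine Or.inr ⟨fun h => h1 ((hO x).2 h), fun y hy1 hy2 => ?_⟩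
      have := h2 (i y) ((hO y).2 hy1) ((hS1 y).2 hy2)
      rw [← map_mul] at this
      exact (hS1 _).1 this
  · rintro (⟨h1, h2⟩ | ⟨h1, h2⟩)
    · exact Or.inl ⟨(hO x).2 h1, (hS1 x).2 h2⟩
    · refine Or.inr ⟨fun h => h1 ((hO x).1 h), fun z hz1 hz2 => ?_⟩
      by_contra hcon
      have hx0 : x ≠ 0 := by
        rintro rfl
        apply hcon
        rw [map_zero, zero_mul, add_zero]
        exact ⟨1, by ring⟩
      have hix0 : i x ≠ 0 := fun h0 => hx0 (hinj (by rw [h0, map_zero]))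
      have hix : ¬ Od (i e) (i x) := fun h => h1 ((hO x).1 h)
      have hz0 := ram_od_ne hz1
      have hw : Od (i e) (i x * z) := ram_ev_od hie hix hix0 hz1
      have hw' := ram_od_inv hie hw
      have hw1 : IsSquare (1 + (i x * z)⁻¹) := (ram_dep hie hw).resolve_left hcon
      obtain ⟨O₁, hO₁⟩ := hR N₁ e he
      obtain ⟨O₂, hO₂⟩ := hR N₂ (i e) hie
      have hie_fix : ∀ j : ℕ, (τ ^ j) (i e) = i e := by
        intro j
        induction j with
        | zero => rw [pow_zero]; rfl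
        | succ n ih => rw [pow_succ', RingAut.mul_apply, ih, (hf (i e)).2 ⟨e, rfl⟩]
      have hsqτ : ∀ (σ : N₂ ≃+* N₂) (y : N₂), IsSquare (σ y) ↔ IsSquare y := by
        intro σ y
        constructor
        · rintro ⟨r, hr⟩
          refine ⟨σ.symm r, ?_⟩
          rw [← map_mul, ← hr, RingEquiv.symm_apply_apply]
        · rintro ⟨r, rfl⟩
          exact ⟨σ r, map_mul _ _ _⟩
      -- norms of small odd elements
      have key : ∀ y : N₂, Od (i e) y → IsSquare (1 + y) →
          ∃ Y : N₁, i Y = ∏ j ∈ range m, (τ ^ j) y ∧ Od e Y ∧ IsSquare (1 + Y) := by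
        intro y hy1 hy2
        obtain ⟨Y, hY⟩ := (hf _).1 (ram_fix τ m hτ y (ram_od_ne hy1))
        have hod : ∀ j, Od (i e) ((τ ^ j) y) := by
          intro j
          unfold Od at hy1 ⊢
          have h5 : i e * (τ ^ j) y = (τ ^ j) (i e * y) := by rw [map_mul, hie_fix]
          rw [h5, hsqτ, hsqτ]
          exact hy1
        have hmem : ∀ j, (τ ^ j) y ∈ O₂ := by
          intro j
          rw [hO₂]
          refine Or.inl ⟨hod j, ?_⟩
          have h5 : 1 + (τ ^ j) y = (τ ^ j) (1 + y) := by rw [map_add, map_one]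
          rw [h5, hsqτ]
          exact hy2
        have hprod : ∏ j ∈ range m, (τ ^ j) y ∈ O₂ := prod_mem fun j _ => hmem j
        have hpod := (ram_prod_par hie (fun j => (τ ^ j) y) hod m).2.2 hm
        rw [← hY] at hprod hpod
        refine ⟨Y, hY, (hO Y).1 hpod, (hS1 Y).1 ?_⟩
        rcases (hO₂ _).1 hprod with h6 | h6
        · exact h6.2
        · exact absurd hpod h6.1
      obtain ⟨Z, hZ, hZ1, hZ2⟩ := key z hz1 hz2
      obtain ⟨W, hW, hW1, hW2⟩ := key (i x * z)⁻¹ hw' hw1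
      have hrel : W = (x ^ m * Z)⁻¹ := by
        apply hinj
        rw [hW, map_inv₀, map_mul, hZ, map_pow, ← ram_prod_fix i τ hf m x, ← prod_mul_distrib,
          ← prod_inv_distrib]
        exact prod_congr rfl fun j _ => by rw [map_inv₀, map_mul]
      have hxO : x ∈ O₁ := (hO₁ x).2 (Or.inr ⟨h1, h2⟩)
      have hZO : Z ∈ O₁ := (hO₁ Z).2 (Or.inl ⟨hZ1, hZ2⟩)
      have haO : x ^ m * Z ∈ O₁ := mul_mem (pow_mem hxO m) hZO
      have haod : Od e (x ^ m * Z) :=
        ram_ev_od he (ram_ev_pow he h1 m) (pow_ne_zero _ hx0) hZ1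
      have ha1 : IsSquare (1 + x ^ m * Z) := by
        rcases (hO₁ _).1 haO with h6 | h6
        · exact h6.2
        · exact absurd haod h6.1
      rw [hrel] at hW2
      exact ram_contra he haod ha1 hW2

end Pool.Agent.Helper14.BSC
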