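import Pool.Agent.Helper14.BSC.Stmts

set_option autoImplicit false

namespace Pool.Agent.Helper14.BSC

open Finset

theorem ram3_fix {N : Type} [Field N] (τ : N ≃+* N) (m : ℕ) (hm : ∀ x : N, (τ ^ m) x = x) (y : N)
    (hy : y ≠ 0) : τ (∏ j ∈ range m, (τ ^ j) y) = ∏ j ∈ range m, (τ ^ j) y := by
  have h1 : ∀ j : ℕ, τ ((τ ^ j) y) = (τ ^ (j + 1)) y := fun j => by
    rw [pow_succ', RingAut.mul_apply]
  rw [map_prod]
  simp only [h1]
  have h2 := prod_range_succ' (fun j => (τ ^ j) y) m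
  have h3 := prod_range_succ (fun j => (τ ^ j) y) m
  have h0 : (τ ^ 0) y = y := by rw [pow_zero]; rfl
  rw [h3, h0, hm y] at h2
  exact (mul_right_cancel₀ hy h2).symm

theorem ram3_fixi {N₁ N₂ : Type} [Field N₁] [Field N₂] (i : N₁ →+* N₂) (τ : N₂ ≃+* N₂)
    (hf : ∀ x : N₂, τ x = x ↔ x ∈ i.range) (x : N₁) (j : ℕ) : (τ ^ j) (i x) = i x := by
  induction j with
  | zero => rw [pow_zero]; rfl
  | succ n ih => rw [pow_succ', RingAut.mul_apply, ih, (hf (i x)).2 ⟨x, rfl⟩]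

theorem ram3_prod_fix {N₁ N₂ : Type} [Field N₁] [Field N₂] (i : N₁ →+* N₂) (τ : N₂ ≃+* N₂)
    (hf : ∀ x : N₂, τ x = x ↔ x ∈ i.range) (m : ℕ) (x : N₁) :
    ∏ j ∈ range m, (τ ^ j) (i x) = i x ^ m := by
  simp only [ram3_fixi i τ hf x, prod_const, card_range]

section one
variable {N : Type} [Field N]

theorem ram3_cmul {a b : N} (ha : C3 a) (hb : C3 b) : C3 (a * b) := by
  obtain ⟨x, rfl⟩ := ha
  obtain ⟨y, rfl⟩ := hb
  exact ⟨x * y, by rw [mul_pow]⟩

theorem ram3_cinv {a : N} (ha : C3 a) : C3 a⁻¹ := by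
  obtain ⟨x, rfl⟩ := ha
  exact ⟨x⁻¹, by rw [inv_pow]⟩

theorem ram3_cube (a : N) : C3 (a ^ 3) := ⟨a, rfl⟩

theorem ram3_cc {a b : N} (hb : C3 b) (hb0 : b ≠ 0) (h : C3 (b * a)) : C3 a := by
  have := ram3_cmul (ram3_cinv hb) h
  rwa [← mul_assoc, inv_mul_cancel₀ hb0, one_mul] at this

/-- the even elements: `x`, `e x` or `e² x` is a cube -/
theorem ram3_not_od {e x : N} : ¬ Od3 e x ↔ C3 x ∨ C3 (e * x) ∨ C3 (e ^ 2 * x) := by
  unfold Od3; tauto

theorem ram3_ne {e x : N} (h : Od3 e x) : x ≠ 0 := by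
  rintro rfl
  exact h.1 ⟨0, by ring⟩

theorem ram3_ev_iff {e x : N} (he : e ≠ 0) : ¬ Od3 e x ↔ ∃ n : ℕ, C3 (e ^ n * x) := by
  rw [ram3_not_od]
  constructor
  · rintro (h | h | h)
    · exact ⟨0, by rwa [pow_zero, one_mul]⟩
    · exact ⟨1, by rwa [pow_one]⟩
    · exact ⟨2, h⟩
  · rintro ⟨n, h⟩
    have h1 : e ^ n = (e ^ (n / 3)) ^ 3 * e ^ (n % 3) := by
      rw [← pow_mul, ← pow_add]; congr 1; omega
    rw [h1, mul_assoc] at h
    have h2 := ram3_cc (ram3_cube _) (pow_ne_zero _ (pow_ne_zero _ he)) h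
    have h3 : n % 3 < 3 := Nat.mod_lt _ (by norm_num)
    generalize n % 3 = r at h2 h3
    interval_cases r
    · left; rwa [pow_zero, one_mul] at h2
    · right; left; rwa [pow_one] at h2
    · right; right; exact h2

theorem ram3_ev_mul {e x y : N} (he : e ≠ 0) (hx : ¬ Od3 e x) (hy : ¬ Od3 e y) :
    ¬ Od3 e (x * y) := by
  rw [ram3_ev_iff he] at *
  obtain ⟨a, ha⟩ := hx
  obtain ⟨b, hb⟩ := hy
  refine ⟨a + b, ?_⟩
  have := ram3_cmul ha hb
  rwa [show e ^ a * x * (e ^ b * y) = e ^ (a + b) * (x * y) by rw [pow_add]; ring] at this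

theorem ram3_ev_inv {e x : N} (he : e ≠ 0) (hx : ¬ Od3 e x) : ¬ Od3 e x⁻¹ := by
  rw [ram3_ev_iff he] at *
  obtain ⟨a, ha⟩ := hx
  refine ⟨2 * a, ?_⟩
  have := ram3_cmul (ram3_cube (e ^ a)) (ram3_cinv ha)
  rwa [show (e ^ a) ^ 3 * (e ^ a * x)⁻¹ = e ^ (2 * a) * x⁻¹ by
    rw [mul_inv, ← mul_assoc]
    congr 1
    have : e ^ a ≠ 0 := pow_ne_zero _ he
    field_simp
    rw [mul_comm 2 a, pow_mul]] at this

theorem ram3_ev_od {e x y : N} (he : e ≠ 0) (hx : ¬ Od3 e x) (hx0 : x ≠ 0) (hy : Od3 e y) :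
    Od3 e (x * y) := by
  by_contra hc
  have := ram3_ev_mul he (ram3_ev_inv he hx) hc
  rw [← mul_assoc, inv_mul_cancel₀ hx0, one_mul] at this
  exact this hy

theorem ram3_od_inv {e x : N} (he : e ≠ 0) (hx : Od3 e x) : Od3 e x⁻¹ := by
  by_contra hc
  have := ram3_ev_inv he hc
  rw [inv_inv] at this
  exact this hx

theorem ram3_cube_ev {e x : N} (hx : C3 x) : ¬ Od3 e x := fun h => h.1 hx

theorem ram3_ev_pow {e x : N} (he : e ≠ 0) (hx : ¬ Od3 e x) (n : ℕ) : ¬ Od3 e (x ^ n) := by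
  induction n with
  | zero => rw [pow_zero]; exact ram3_cube_ev ⟨1, by ring⟩
  | succ n ih => rw [pow_succ]; exact ram3_ev_mul he ih hx

/-- a power prime to `3` of an odd element is odd -/
theorem ram3_od_pow {e x : N} (he : e ≠ 0) (hx : Od3 e x) (m : ℕ) (hm : ¬ 3 ∣ m) :
    Od3 e (x ^ m) := by
  have hx0 := ram3_ne hx
  by_contra hc
  -- `x ^ (m * m)` is even and equals `x` times a cube
  have h1 := ram3_ev_pow he hc m
  rw [← pow_mul] at h1
  have h2 : m * m % 3 = 1 := by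
    have : m % 3 = 1 ∨ m % 3 = 2 := by omega
    rcases this with h | h <;> simp [Nat.mul_mod, h]
  have h3 : x ^ (m * m) = (x ^ (m * m / 3)) ^ 3 * x := by
    rw [← pow_mul, ← pow_succ]; congr 1; omega
  rw [h3] at h1
  have h4 := ram3_ev_mul he
    (ram3_ev_inv he (ram3_cube_ev (ram3_cube (x ^ (m * m / 3))))) h1
  rw [← mul_assoc, inv_mul_cancel₀ (pow_ne_zero _ (pow_ne_zero _ hx0)), one_mul] at h4
  exact h4 hx

theorem ram3_neg_one {e x : N} (hx : Od3 e x) : 1 + x ≠ 0 := by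
  intro h0
  have : x = -1 := by linear_combination h0
  rw [this] at hx
  exact hx.1 ⟨-1, by ring⟩

theorem ram3_contra {e a : N} (ha : Od3 e a) (h1 : C3 (1 + a)) (h2 : C3 (1 + a⁻¹)) : False := by
  have h3 := ram3_cmul h1 (ram3_cinv h2)
  have h4 := ram3_neg_one ha
  have ha0 := ram3_ne ha
  have h5 : 1 + a⁻¹ = (1 + a) / a := by field_simp; ring
  rw [h5, show (1 + a) * ((1 + a) / a)⁻¹ = a by rw [inv_div]; field_simp] at h3
  exact ha.1 h3

end one

theorem st_RAM3 (hR : ST_RIG3) : ST_RAM3 := by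
  intro N₁ N₂ _ _ i τ m hm hm0 hf hτ hcls e he hie x
  have hinj := i.injective
  have he0 : e ≠ 0 := he.1
  have hie0 : i e ≠ 0 := hie.1
  -- cubes descend
  have hS : ∀ x : N₁, C3 (i x) ↔ C3 x := by
    intro x
    constructor
    · rintro ⟨y, hy⟩
      by_cases hx : x = 0
      · rw [hx]; exact ⟨0, by ring⟩
      have hix : i x ≠ 0 := fun h0 => hx (hinj (by rw [h0, map_zero]))
      have hy0 : y ≠ 0 := by
        rintro rfl
        rw [zero_pow (by norm_num)] at hy; exact hix hy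
      obtain ⟨Y, hY⟩ := (hf _).1 (ram3_fix τ m hτ y hy0)
      have h1 : i (Y ^ 3) = i (x ^ m) := by
        rw [map_pow, hY, ← prod_pow, map_pow, ← ram3_prod_fix i τ hf m x, hy]
        exact prod_congr rfl fun j _ => (map_pow _ _ _).symm
      have h2 : C3 (x ^ m) := ⟨Y, (hinj h1).symm⟩
      obtain ⟨w, hw⟩ := h2
      have h3 : m * m % 3 = 1 := by
        have : m % 3 = 1 ∨ m % 3 = 2 := by omega
        rcases this with h | h <;> simp [Nat.mul_mod, h]
      have h4 : C3 (x ^ (m * m)) := ⟨w ^ m, by rw [pow_mul, hw, ← pow_mul, ← pow_mul, mul_comm]⟩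
      have h5 : x ^ (m * m) = (x ^ (m * m / 3)) ^ 3 * x := by
        rw [← pow_mul, ← pow_succ]; congr 1; omega
      rw [h5] at h4
      exact ram3_cc (ram3_cube _) (pow_ne_zero _ (pow_ne_zero _ hx)) h4
    · rintro ⟨y, rfl⟩
      exact ⟨i y, map_pow i y 3⟩
  have hO : ∀ x : N₁, Od3 (i e) (i x) ↔ Od3 e x := by
    intro x
    unfold Od3
    rw [← map_mul, ← map_pow, ← map_mul, hS, hS, hS]
  have hS1 : ∀ x : N₁, C3 (1 + i x) ↔ C3 (1 + x) := by
    intro x
    rw [← hS (1 + x), map_add, map_one]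
  constructor
  · rintro (⟨h1, h2⟩ | ⟨h1, h2⟩)
    · exact Or.inl ⟨(hO x).1 h1, (hS1 x).1 h2⟩
    · refine Or.inr ⟨fun h => h1 ((hO x).2 h), fun y hy1 hy2 => ?_⟩
      have := h2 (i y) ((hO y).2 hy1) ((hS1 y).2 hy2)
      rw [← map_mul] at this
      exact (hS1 _).1 this
  · rintro (⟨h1, h2⟩ | ⟨h1, h2⟩)
    · exact Or.inl ⟨(hO x).2 h1, (hS1 x).2 h2⟩
    · refine Or.inr ⟨fun h => h1 ((hO x).1 h), fun z hz1 hz2 => ?_⟩
      by_contra hcon
      have hx0 : x ≠ 0 := by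
        rintro rfl
        apply hcon
        rw [map_zero, zero_mul, add_zero]
        exact ⟨1, by ring⟩
      have hix0 : i x ≠ 0 := fun h0 => hx0 (hinj (by rw [h0, map_zero]))
      have hix : ¬ Od3 (i e) (i x) := fun h => h1 ((hO x).1 h)
      have hw : Od3 (i e) (i x * z) := ram3_ev_od hie0 hix hix0 hz1
      have hw' := ram3_od_inv hie0 hw
      have hw1 : C3 (1 + (i x * z)⁻¹) := (hie.2 _ hw).resolve_left hcon
      obtain ⟨O₁, hO₁⟩ := hR N₁ e he
      obtain ⟨O₂, hO₂⟩ := hR N₂ (i e) hie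
      have hsqτ : ∀ (σ : N₂ ≃+* N₂) (y : N₂), C3 (σ y) ↔ C3 y := by
        intro σ y
        constructor
        · rintro ⟨r, hr⟩
          refine ⟨σ.symm r, ?_⟩
          rw [← map_pow, ← hr, RingEquiv.symm_apply_apply]
        · rintro ⟨r, rfl⟩
          exact ⟨σ r, map_pow _ _ _⟩
      -- norms of small odd elements
      have key : ∀ y : N₂, Od3 (i e) y → C3 (1 + y) →
          ∃ Y : N₁, i Y = ∏ j ∈ range m, (τ ^ j) y ∧ Od3 e Y ∧ C3 (1 + Y) := by
        intro y hy1 hy2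
        have hy0 := ram3_ne hy1
        obtain ⟨Y, hY⟩ := (hf _).1 (ram3_fix τ m hτ y hy0)
        have hod : ∀ j, Od3 (i e) ((τ ^ j) y) := by
          intro j
          unfold Od3 at hy1 ⊢
          have h5 : i e * (τ ^ j) y = (τ ^ j) (i e * y) := by rw [map_mul, ram3_fixi i τ hf]
          have h6 : i e ^ 2 * (τ ^ j) y = (τ ^ j) (i e ^ 2 * y) := by
            rw [map_mul, map_pow, ram3_fixi i τ hf]
          rw [h5, h6, hsqτ, hsqτ, hsqτ]
          exact hy1
        have hmem : ∀ j, (τ ^ j) y ∈ O₂ := by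
          intro j
          rw [hO₂]
          refine Or.inl ⟨hod j, ?_⟩
          have h5 : 1 + (τ ^ j) y = (τ ^ j) (1 + y) := by rw [map_add, map_one]
          rw [h5, hsqτ]
          exact hy2
        have hprod : ∏ j ∈ range m, (τ ^ j) y ∈ O₂ := prod_mem fun j _ => hmem j
        -- parity
        obtain ⟨c, t, hct⟩ := hcls y hy0
        have ht0 : t ≠ 0 := by
          rintro rfl
          rw [zero_pow (by norm_num), mul_zero] at hct; exact hy0 hct
        have hc : Od3 (i e) (i c) := by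
          by_contra hcc
          have := ram3_ev_mul hie0 hcc (ram3_cube_ev (ram3_cube t))
          rw [← hct] at this
          exact this hy1
        have hpr : ∏ j ∈ range m, (τ ^ j) y = (∏ j ∈ range m, (τ ^ j) t) ^ 3 * i c ^ m := by
          rw [← ram3_prod_fix i τ hf m c, ← prod_pow, ← prod_mul_distrib]
          refine prod_congr rfl fun j _ => ?_
          rw [hct, map_mul, map_pow, mul_comm]
        have hpod : Od3 (i e) (∏ j ∈ range m, (τ ^ j) y) := by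
          rw [hpr]
          refine ram3_ev_od hie0 (ram3_cube_ev (ram3_cube _)) ?_ (ram3_od_pow hie0 hc m hm)
          refine pow_ne_zero _ (prod_ne_zero_iff.2 fun j _ => ?_)
          intro h0
          exact ht0 ((map_eq_zero_iff _ (τ ^ j).injective).1 h0)
        rw [← hY] at hprod hpod
        refine ⟨Y, hY, (hO Y).1 hpod, (hS1 Y).1 ?_⟩
        rcases (hO₂ _).1 hprod with h6 | h6
        · exact h6.2
        · exact absurd hpod h6.1
      obtain ⟨Z, hZ, hZ1, hZ2⟩ := key z hz1 hz2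
      obtain ⟨W, hW, hW1, hW2⟩ := key (i x * z)⁻¹ hw' hw1
      have hrel : W = (x ^ m * Z)⁻¹ := by
        apply hinj
        rw [hW, map_inv₀, map_mul, hZ, map_pow, ← ram3_prod_fix i τ hf m x, ← prod_mul_distrib,
          ← prod_inv_distrib]
        exact prod_congr rfl fun j _ => by rw [map_inv₀, map_mul]
      have hxO : x ∈ O₁ := (hO₁ x).2 (Or.inr ⟨h1, h2⟩)
      have hZO : Z ∈ O₁ := (hO₁ Z).2 (Or.inl ⟨hZ1, hZ2⟩)
      have haO : x ^ m * Z ∈ O₁ := mul_mem (pow_mem hxO m) hZO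
      have haod : Od3 e (x ^ m * Z) :=
        ram3_ev_od he0 (ram3_ev_pow he0 h1 m) (pow_ne_zero _ hx0) hZ1
      have ha1 : C3 (1 + x ^ m * Z) := by
        rcases (hO₁ _).1 haO with h6 | h6
        · exact h6.2
        · exact absurd haod h6.1
      rw [hrel] at hW2
      exact ram3_contra haod ha1 hW2

end Pool.Agent.Helper14.BSC
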